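import Pool.Agent.H16.FK.TargetsB

/-!
# Smallness gives isomorphisms of visible parts
-/

set_option autoImplicit false

namespace Pool.Agent.H23.FK

open Set Pool.Agent.H75.HCI Pool.Agent.H41.HI Pool.Agent.H16.FK

variable {C : Type} {kx k : ℕ}

/-- The part of the array with chunks in `B`, with the marks, is measurable in `c`. -/
lemma afm {α : Type} (z : List α) (S : ℕ → ℕ) (pt : Idx kx k → α) (B : (ℕ → Bool) → Set ℕ)
    (hB : ∀ n, MeasurableSet {c : ℕ → Bool | n ∈ B c}) (x : α) :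
    MeasurableSet {c : ℕ → Bool | x ∈ AF z S pt (B c)} := by
  by_cases hx : x ∈ z
  · have : {c : ℕ → Bool | x ∈ AF z S pt (B c)} = univ :=
      eq_univ_of_forall fun c => Or.inl hx
    rw [this]
    exact MeasurableSet.univ
  · have h1 : {c : ℕ → Bool | x ∈ AF z S pt (B c)} =
        ⋃ p ∈ {p : Idx kx k | p ∈ V kx k S ∧ pt p = x}, {c : ℕ → Bool | p.1 ∈ B c} := by
      ext c
      simp only [AF, mem_union, mem_image, mem_ofPred_eq, mem_iUnion, exists_prop]
      constructor
      · rintro (h | ⟨p, ⟨h1, h2⟩, h3⟩)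
        · exact absurd h hx
        · exact ⟨p, ⟨h1, h3⟩, h2⟩
      · rintro ⟨p, ⟨h1, h3⟩, h2⟩
        exact Or.inr ⟨p, ⟨h1, h2⟩, h3⟩
    rw [h1]
    exact MeasurableSet.biUnion (to_countable _) fun p _ => hB p.1

lemma afi {α : Type} (z : List α) (S : ℕ → ℕ) (pt : Idx kx k → α) (hk : 1 ≤ k)
    (hS : ∀ i, 1 ≤ S i) (hinj : InjOn pt (V kx k S)) (B : Set ℕ)
    (hB : B.Infinite) : (AF z S pt B).Infinite := by
  have h1 : (pt '' {p | p ∈ V kx k S ∧ p.1 ∈ B}).Infinite := by
    refine Infinite.image (hinj.mono fun p hp => hp.1) ?_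
    have h2 : ((fun n : ℕ => ((n, .inr (0, ⟨0, hk⟩)) : Idx kx k)) '' B).Infinite := by
      refine Infinite.image ?_ hB
      intro a _ b _ h
      exact (Prod.ext_iff.1 h).1
    refine h2.mono ?_
    rintro _ ⟨n, hn, rfl⟩
    refine ⟨?_, hn⟩
    intro q hq
    have hq' : (0, ⟨0, hk⟩) = q := Sum.inr.inj hq
    rw [← hq']
    exact hS n
  exact h1.mono subset_union_right

/-- The visible points of the first chunks are finitely many. -/
lemma fin_first (S : ℕ → ℕ) (i0 : ℕ) : {p : Idx kx k | p ∈ V kx k S ∧ p.1 < i0}.Finite := by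
  let F : Set (Idx kx k) := ⋃ i ∈ Iio i0,
    ((fun b : Fin kx => ((i, .inl b) : Idx kx k)) '' univ ∪
      (fun q : ℕ × Fin k => ((i, .inr q) : Idx kx k)) '' (Iio (S i) ×ˢ univ))
  have hF : F.Finite := by
    refine (finite_Iio i0).biUnion fun i _ => ?_
    refine (toFinite _).union ?_
    exact ((finite_Iio (S i)).prod finite_univ).image _
  refine hF.subset ?_
  rintro ⟨i, x⟩ ⟨h1, h2⟩
  refine mem_iUnion₂.2 ⟨i, h2, ?_⟩
  rcases x with b | q
  · exact Or.inl ⟨b, mem_univ _, rfl⟩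
  · exact Or.inr ⟨q, ⟨h1 q rfl, mem_univ _⟩, rfl⟩

/-- An isomorphism between two parts of the array. -/
theorem transport2 {M : List ℕ → C} {T : List (Idx kx k) → (List ℕ → C)} {z : List ℕ}
    {S : ℕ → ℕ} {pt : Idx kx k → ℕ} (hT : PatInv T) (hinj : InjOn pt (V kx k S))
    (hdisj : ∀ p ∈ V kx k S, pt p ∉ z)
    (hlab : ∀ l : List (Idx kx k), (∀ p ∈ l, p ∈ V kx k S) → T l = ft M (z ++ l.map pt))
    {φ φ' : ℕ → ℕ} (hφ : StrictMono φ) (hφ' : StrictMono φ') (g : ℕ → ℕ)
    (hg : Emb (ft M) id (ft M) id g (AF z S pt (range φ)))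
    (him : g '' AF z S pt (range φ) = AF z S pt (range φ')) (hz : ∀ x ∈ z, g x = x) :
    ∃ g' : Idx kx k → Idx kx k, Iso T g' (fun i => S (φ i)) (fun i => S (φ' i)) ∧
      ∀ p ∈ V kx k (fun i => S (φ i)), g' p ∈ V kx k (fun i => S (φ' i)) ∧
        pt (sh φ' (g' p)) = g (pt (sh φ p)) := by
  classical
  have hin : ∀ p ∈ V kx k (fun i => S (φ i)), pt (sh φ p) ∈ AF z S pt (range φ) :=
    fun p hp => Or.inr ⟨sh φ p, ⟨sh_mem hp, ⟨p.1, rfl⟩⟩, rfl⟩
  have hex : ∀ p ∈ V kx k (fun i => S (φ i)), ∃ q ∈ V kx k (fun i => S (φ' i)),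
      pt (sh φ' q) = g (pt (sh φ p)) := by
    intro p hp
    have h1 : g (pt (sh φ p)) ∈ AF z S pt (range φ') := by
      rw [← him]
      exact ⟨_, hin p hp, rfl⟩
    rcases h1 with h1 | ⟨q, ⟨hq1, hq2⟩, hq3⟩
    · exfalso
      have h2 := hz _ h1
      have h3 := hg.inj (Or.inl h1) (hin p hp) h2
      rw [h3] at h1
      exact hdisj _ (sh_mem hp) h1
    · obtain ⟨q', hq', rfl⟩ := sh_surj (S := S) rfl hq1 hq2
      exact ⟨q', hq', hq3⟩
  choose! g' hg'1 hg'2 using hex
  refine ⟨g', ⟨?_, ?_, ?_⟩, fun p hp => ⟨hg'1 p hp, hg'2 p hp⟩⟩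
  · intro p hp q hq hpq
    have h1 : g (pt (sh φ p)) = g (pt (sh φ q)) := by
      rw [← hg'2 p hp, ← hg'2 q hq, hpq]
    have h2 := hg.inj (hin p hp) (hin q hq) h1
    exact sh_inj hφ (hinj (sh_mem hp) (sh_mem hq) h2)
  · refine Subset.antisymm ?_ ?_
    · rintro _ ⟨p, hp, rfl⟩
      exact hg'1 p hp
    · intro q hq
      have h1 : pt (sh φ' q) ∈ AF z S pt (range φ') :=
        Or.inr ⟨sh φ' q, ⟨sh_mem hq, ⟨q.1, rfl⟩⟩, rfl⟩
      rw [← him] at h1
      obtain ⟨x, hx, hxq⟩ := h1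
      rcases hx with hx | ⟨p, ⟨hp1, hp2⟩, rfl⟩
      · exfalso
        rw [hz x hx] at hxq
        rw [hxq] at hx
        exact hdisj _ (sh_mem hq) hx
      · obtain ⟨p', hp', rfl⟩ := sh_surj (S := S) rfl hp1 hp2
        refine ⟨p', hp', ?_⟩
        have h2 := hg'2 p' hp'
        rw [hxq] at h2
        exact sh_inj hφ' (hinj (sh_mem (hg'1 p' hp')) (sh_mem hq) h2)
  · intro l hl
    have e1 : T (l.map g') = T ((l.map g').map (sh φ')) :=
      (hT (sh φ') univ (pat_sh hφ' univ) _ fun _ _ => mem_univ _).symm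
    have e2 : T ((l.map g').map (sh φ')) = ft M (z ++ ((l.map g').map (sh φ')).map pt) := by
      refine hlab _ fun p hp => ?_
      rw [List.map_map, List.mem_map] at hp
      obtain ⟨x, hx, rfl⟩ := hp
      exact sh_mem (hg'1 x (hl x hx))
    have e3 : z ++ ((l.map g').map (sh φ')).map pt = (z ++ (l.map (sh φ)).map pt).map g := by
      rw [List.map_append]
      congr 1
      · symm
        conv_rhs => rw [← List.map_id z]
        exact List.map_congr_left fun x hx => hz x hx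
      · rw [List.map_map, List.map_map, List.map_map, List.map_map]
        exact List.map_congr_left fun x hx => hg'2 x (hl x hx)
    have e4 : ft M ((z ++ (l.map (sh φ)).map pt).map g) = ft M (z ++ (l.map (sh φ)).map pt) := by
      refine hg.lab _ fun x hx => ?_
      rcases List.mem_append.1 hx with hx | hx
      · exact Or.inl hx
      · rw [List.map_map, List.mem_map] at hx
        obtain ⟨y, hy, rfl⟩ := hx
        exact hin y (hl y hy)
    have e5 : ft M (z ++ (l.map (sh φ)).map pt) = T (l.map (sh φ)) := by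
      refine (hlab _ fun p hp => ?_).symm
      rw [List.mem_map] at hp
      obtain ⟨x, hx, rfl⟩ := hp
      exact sh_mem (hl x hx)
    have e6 : T (l.map (sh φ)) = T l := hT (sh φ) univ (pat_sh hφ univ) _ fun _ _ => mem_univ _
    rw [e1, e2, e3, e4, e5, e6]

lemma sf_shift {S : ℕ → ℕ} {n : ℕ} (hS : SF n S) (a : ℕ) : SF n fun i => S (a + i) := by
  intro m
  have h1 := hS (a + m)
  rw [Finset.sum_range_add] at h1
  change n + ∑ j ∈ Finset.range m, (S (a + j) + n) < S (a + m)
  omega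

/-- The chunks: the first `i0` ones and the shifted branch. -/
def BB (i0 : ℕ) (c : ℕ → Bool) : Set ℕ := {n | n < i0 ∨ (i0 ≤ n ∧ n - i0 ∈ br c)}

/-- The enumeration. -/
def en (i0 : ℕ) (ψ : ℕ → ℕ) (i : ℕ) : ℕ := if i < i0 then i else i0 + ψ (i - i0)

lemma en_mono (i0 : ℕ) {ψ : ℕ → ℕ} (hψ : StrictMono ψ) : StrictMono (en i0 ψ) := by
  intro i j hij
  unfold en
  split_ifs with h1 h2
  · exact hij
  · omega
  · omega
  · have : ψ (i - i0) < ψ (j - i0) := hψ (by omega)
    omega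

lemma en_range (i0 : ℕ) {ψ : ℕ → ℕ} {c : ℕ → Bool} (h : range ψ = br c) :
    range (en i0 ψ) = BB i0 c := by
  ext n
  simp only [mem_range, BB, mem_ofPred_eq]
  constructor
  · rintro ⟨i, rfl⟩
    unfold en
    split_ifs with h1
    · exact Or.inl h1
    · refine Or.inr ⟨by omega, ?_⟩
      rw [← h]
      exact ⟨i - i0, by omega⟩
  · rintro (h1 | ⟨h1, h2⟩)
    · exact ⟨n, by unfold en; rw [if_pos h1]⟩
    · rw [← h] at h2
      obtain ⟨i, hi⟩ := h2
      refine ⟨i0 + i, ?_⟩
      unfold en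
      rw [if_neg (by omega)]
      have : i0 + i - i0 = i := by omega
      rw [this, hi]
      omega

theorem pf_COLL : T_COLL := by
  intro C kx k M z T hk hsm hT _ hreal i0 N
  classical
  obtain ⟨S0, hS0, -⟩ := exists_sf kx
  set S : ℕ → ℕ := fun i => S0 (N + i) with hSdef
  have hS : SF kx S := sf_shift hS0 N
  have hSm : StrictMono S := sf_mono hS
  have hSN : ∀ i, N ≤ S i := fun i => by
    have h1 : N + i ≤ S0 (N + i) := (sf_mono hS0).id_le (N + i)
    change N ≤ S0 (N + i)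
    omega
  have hS1 : ∀ i, 1 ≤ S i := fun i => by
    have := hS i
    omega
  obtain ⟨pt, hinj, hdisj, hlab⟩ := hreal S
  have hF := fin_first (kx := kx) (k := k) S i0
  set z' : List ℕ := z ++ hF.toFinset.toList.map pt with hz'
  have hmem : ∀ x, x ∈ z' ↔ x ∈ z ∨ ∃ p, (p ∈ V kx k S ∧ p.1 < i0) ∧ pt p = x := by
    intro x
    rw [hz', List.mem_append, List.mem_map]
    simp only [Finset.mem_toList, Finite.mem_toFinset, mem_ofPred_eq]
  obtain ⟨c, c', hcc, g, hg, him, hgz⟩ := hsm (fun c => AF z S pt (BB i0 c)) z'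
    (fun x => afm z S pt (BB i0) (fun n => by
      by_cases hn : n < i0
      · have : {c : ℕ → Bool | n ∈ BB i0 c} = univ := eq_univ_of_forall fun c => Or.inl hn
        rw [this]
        exact MeasurableSet.univ
      · have : {c : ℕ → Bool | n ∈ BB i0 c} = {c | n - i0 ∈ br c} := by
          ext c
          simp only [BB, mem_ofPred_eq]
          constructor
          · rintro (h | h)
            · exact absurd h hn
            · exact h.2
          · intro h
            exact Or.inr ⟨not_lt.1 hn, h⟩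
        rw [this]
        exact br_measurable _) x)
    (fun c => afi z S pt hk hS1 hinj _ (by
      have h1 : ((fun n => i0 + n) '' br c).Infinite :=
        (br_infinite c).image fun a _ b _ h => by
          have h' : i0 + a = i0 + b := h
          omega
      refine h1.mono ?_
      rintro _ ⟨n, hn, rfl⟩
      refine Or.inr ⟨Nat.le_add_right _ _, ?_⟩
      change i0 + n - i0 ∈ br c
      have : i0 + n - i0 = n := by omega
      rw [this]
      exact hn))
    (fun c => subset_univ _)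
    (fun c x hx y _ hyx => by
      have hyx' : y = x := hyx
      rw [hyx']
      exact hx)
    (fun c x hx => by
      rcases (hmem x).1 hx with h | ⟨p, ⟨h1, h2⟩, h3⟩
      · exact Or.inl h
      · exact Or.inr ⟨p, ⟨h1, Or.inl h2⟩, h3⟩)
  obtain ⟨ψ, hψ, hψr⟩ := exists_enum (br c) (br_infinite c)
  obtain ⟨ψ', hψ', hψr'⟩ := exists_enum (br c') (br_infinite c')
  have hφ := en_mono i0 hψ
  have hφ' := en_mono i0 hψ'
  have hr := en_range i0 hψr
  have hr' := en_range i0 hψr'
  rw [← hr] at hg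
  have him2 : g '' AF z S pt (range (en i0 ψ)) = AF z S pt (range (en i0 ψ')) := by
    rw [hr, hr']
    exact him
  have hlab2 : ∀ l : List (Idx kx k), (∀ p ∈ l, p ∈ V kx k S) →
      T l = ft M (z ++ l.map pt) := fun l hl => funext fun w => hlab l hl w
  obtain ⟨g', hI, hg'⟩ := transport2 hT hinj hdisj hlab2 hφ hφ' g (emb_ft.2 hg) him2
    fun x hx => hgz x ((hmem x).2 (Or.inl hx))
  have hen : ∀ (χ : ℕ → ℕ) (i : ℕ), en i0 χ (i0 + i) = i0 + χ i := by
    intro χ i
    unfold en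
    rw [if_neg (by omega)]
    congr 2
    omega
  have hlow : ∀ (χ : ℕ → ℕ) (i : ℕ), i < i0 → en i0 χ i = i := by
    intro χ i hi
    unfold en
    rw [if_pos hi]
  refine ⟨fun i => S (en i0 ψ i), fun i => S (en i0 ψ' i), g', hSm.comp hφ, hSm.comp hφ',
    fun i => hSN _, fun i => hSN _, ?_, ?_, hI, ?_⟩
  · intro i hi
    change S (en i0 ψ i) = S (en i0 ψ' i)
    rw [hlow ψ i hi, hlow ψ' i hi]
  · have h1 := fast_of (sf_shift hS i0) hψ hψ' (by
      rw [hψr, hψr']
      exact br_inter hcc)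
    have e1 : (fun i => S (en i0 ψ (i0 + i))) = fun i => S (i0 + ψ i) := by
      funext i
      rw [hen]
    have e2 : (fun i => S (en i0 ψ' (i0 + i))) = fun i => S (i0 + ψ' i) := by
      funext i
      rw [hen]
    change Fast kx (fun i => S (en i0 ψ (i0 + i))) (fun i => S (en i0 ψ' (i0 + i)))
    rw [e1, e2]
    exact h1
  · intro p hp hpi
    obtain ⟨h1, h2⟩ := hg' p hp
    have hsp : ∀ (χ : ℕ → ℕ), sh (en i0 χ) p = p := fun χ => Prod.ext (hlow χ p.1 hpi) rfl
    have hpV : p ∈ V kx k S := by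
      have := sh_mem hp
      rwa [hsp] at this
    have h3 : g (pt p) = pt p := hgz _ ((hmem _).2 (Or.inr ⟨p, ⟨hpV, hpi⟩, rfl⟩))
    rw [hsp, h3] at h2
    have h4 : sh (en i0 ψ') (g' p) = p := hinj (sh_mem h1) hpV h2
    have h5 : sh (en i0 ψ') (g' p) = sh (en i0 ψ') p := by rw [h4, hsp]
    exact sh_inj hφ' h5

end Pool.Agent.H23.FK
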