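import Pool.Agent.H16.FK.TargetsB

set_option autoImplicit false

namespace Pool.Agent.H23.FK

open Set Pool.Agent.H75.HCI Pool.Agent.H41.HI Pool.Agent.H16.FK

theorem pf_CSP : T_CSP := by
  intro m UU c
  classical
  let S : Type := {i : Fin m // ¬ ∃ a, ∀ᶠ j in (UU : Filter ℕ), c j i = a}
  let q : S ≃ Fin (Fintype.card S) := Fintype.equivFin S
  let av : Fin m → ℕ := fun i =>
    if h : ∃ a, ∀ᶠ j in (UU : Filter ℕ), c j i = a then h.choose else 0
  refine ⟨Fintype.card S, fun b => (q.symm b).1, (List.finRange m).map av, ?_, ?_, ?_⟩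
  · intro a b h
    exact q.symm.injective (Subtype.ext h)
  · intro b a
    have h := (q.symm b).2
    have h2 : ¬ ∀ᶠ j in (UU : Filter ℕ), c j (q.symm b).1 = a := fun h3 => h ⟨a, h3⟩
    exact Ultrafilter.eventually_not.2 h2
  · intro i
    by_cases h : ∃ a, ∀ᶠ j in (UU : Filter ℕ), c j i = a
    · right
      refine ⟨av i, List.mem_map.2 ⟨i, List.mem_finRange i, rfl⟩, ?_⟩
      have : av i = h.choose := dif_pos h
      rw [this]
      exact h.choose_spec
    · left
      exact ⟨q ⟨i, h⟩, by simp⟩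

end Pool.Agent.H23.FK
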