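import Pool.Agent.H84.FK.Targets

/-!
# Board fk, FIX: a fixed involution
-/

open Pool.Agent.H84.FK

namespace Pool.Agent.H23.FK

theorem pf_fix : T_FIX := by
  classical
  intro G _ _ X t hX h2 ht htt
  -- the subgroup of elements of order at most two
  let Om : Subgroup G :=
    { carrier := {x | x ∈ X ∧ x * x = 1}
      mul_mem' := by
        rintro a b ⟨ha, ha'⟩ ⟨hb, hb'⟩
        refine ⟨X.mul_mem ha hb, ?_⟩
        have hc := hX a ha b hb
        calc a * b * (a * b) = a * (b * a) * b := by group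
          _ = a * (a * b) * b := by rw [hc]
          _ = (a * a) * (b * b) := by group
          _ = 1 := by rw [ha', hb', mul_one]
      one_mem' := ⟨X.one_mem, mul_one 1⟩
      inv_mem' := by
        rintro a ⟨ha, ha'⟩
        refine ⟨X.inv_mem ha, ?_⟩
        rw [← mul_inv_rev, ha', inv_one] }
  have hOm : ∀ x, x ∈ Om ↔ x ∈ X ∧ x * x = 1 := fun x => Iff.rfl
  have : Fact (Nat.Prime 2) := ⟨Nat.prime_two⟩
  obtain ⟨⟨z0, hz0X⟩, hz0⟩ := exists_prime_orderOf_dvd_card' (G := X) 2 h2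
  have hz0' : orderOf z0 = 2 := by
    rw [← hz0]; exact (Subgroup.orderOf_mk z0 hz0X).symm
  have hz0m : z0 ∈ Om := by
    refine ⟨hz0X, ?_⟩
    have := pow_orderOf_eq_one z0
    rw [hz0', pow_two] at this
    exact this
  have hcard : 2 ∣ Nat.card Om := by
    rw [← hz0']
    exact Subgroup.orderOf_dvd_natCard Om hz0m
  -- the involution
  have hmem : ∀ x : Om, t * x.1 * t⁻¹ ∈ Om := by
    rintro ⟨x, hx, hx'⟩
    refine ⟨ht x hx, ?_⟩
    calc t * x * t⁻¹ * (t * x * t⁻¹) = t * (x * x) * t⁻¹ := by group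
      _ = 1 := by rw [hx']; group
  let f : Om → Om := fun x => ⟨t * x.1 * t⁻¹, hmem x⟩
  have hf : Function.Involutive f := by
    rintro ⟨x, hx, hx'⟩
    apply Subtype.ext
    show t * (t * x * t⁻¹) * t⁻¹ = x
    have hc := hX (t * t) htt x hx
    calc t * (t * x * t⁻¹) * t⁻¹ = (t * t * x) * (t * t)⁻¹ := by group
      _ = x * (t * t) * (t * t)⁻¹ := by rw [hc]
      _ = x := by group
  let σ : Equiv.Perm Om := hf.toPerm f
  have hσ : σ ^ (2 ^ 1) = 1 := by
    ext x
    simp only [pow_one, pow_two, Equiv.Perm.mul_apply, Equiv.Perm.one_apply]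
    exact congrArg Subtype.val (hf x)
  have h1 : σ 1 = 1 := by
    apply Subtype.ext
    show t * 1 * t⁻¹ = 1
    group
  have : Fintype Om := Fintype.ofFinite Om
  rw [Nat.card_eq_fintype_card] at hcard
  obtain ⟨b, hb, hb1⟩ := Equiv.Perm.exists_fixed_point_of_prime' hcard hσ h1
  refine ⟨b.1, b.2.1, b.2.2, fun h => hb1 (Subtype.ext h), ?_⟩
  have hb' : t * b.1 * t⁻¹ = b.1 := congrArg Subtype.val hb
  exact mul_inv_eq_iff_eq_mul.mp hb'

end Pool.Agent.H23.FK
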