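import Pool.Agent.H84.FK.Targets2

/-! # Module IDX2 (MP_85c4d1_al): the order of a least counterexample to F2 divides the factorial of
the index of a soluble subgroup, and this index is at least 5 -/

set_option autoImplicit false

namespace Pool.Agent.H23.FKIDX2

open Pool.Agent.H84.FK

theorem pf_idx2 (hS4 : T_S4) : T_IDX2 := by
  intro G _ A A0 B B0 hC L hL hsol
  have hfin : Finite G := hC.fin
  have h1 : Group.IsSolvable L.normalCore := by
    have hf : Function.Injective (Subgroup.inclusion L.normalCore_le) :=
      Subgroup.inclusion_injective _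
    have := hsol
    exact Group.isSolvable_of_isSolvable_injective hf
  have h2 : L.normalCore = ⊥ := hC.quo _ L.normalCore_normal h1
  have h3 : L.normalCore.index ∣ (L.index).factorial := by
    rw [Subgroup.normalCore_eq_ker, Subgroup.index_ker, Subgroup.index_eq_card, ← Nat.card_perm]
    exact Subgroup.card_subgroup_dvd_card (MulAction.toPermHom G (G ⧸ L)).range
  refine ⟨by rwa [h2, Subgroup.index_bot] at h3, ?_⟩
  by_contra h4
  exact hC.ns (hS4 G L h2 (not_lt.1 h4))

end Pool.Agent.H23.FKIDX2
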